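import Pool.Agent.K1H53.BI.Plan

/-!
# One branching event
-/

set_option autoImplicit false

open scoped ENNReal
open Finset

namespace Pool.Agent.K1H39.BI

open Pool.Agent.K1H53.BI

/-! ### the vectors -/

theorem nsq_int (x : V) : (nsq x : ℤ) = x 0 ^ 2 + x 1 ^ 2 + x 2 ^ 2 := by
  unfold nsq
  rw [Fin.sum_univ_three]
  push_cast
  simp only [sq_abs]

theorem nsq_zero : nsq (0 : V) = 0 := by
  simp [nsq]

theorem nsq_add_dir (x : V) (e : Fin 3 × Bool) :
    (nsq (x + dir e) : ℤ) = nsq x + 2 * (if e.2 then x e.1 else - x e.1) + 1 := by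
  rw [nsq_int, nsq_int]
  obtain ⟨j, b⟩ := e
  fin_cases j <;> cases b <;> simp [dir] <;> ring

theorem sum_nsq_dir (x : V) : (∑ e : Fin 3 × Bool, nsq (x + dir e)) = 6 * nsq x + 6 := by
  have h : ((∑ e : Fin 3 × Bool, nsq (x + dir e) : ℕ) : ℤ) = ((6 * nsq x + 6 : ℕ) : ℤ) := by
    push_cast
    simp only [nsq_add_dir]
    rw [Fintype.sum_prod_type]
    simp only [Fintype.sum_bool, Fin.sum_univ_three]
    simp
    ring
  exact_mod_cast h

theorem nsq_dir_le {x : V} {R : ℕ} (hx : nsq x ≤ R ^ 2) (e : Fin 3 × Bool) :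
    nsq (x + dir e) ≤ (R + 1) ^ 2 := by
  have h : (nsq (x + dir e) : ℤ) ≤ ((R + 1 : ℕ) : ℤ) ^ 2 := by
    rw [nsq_add_dir]
    have hx' : (nsq x : ℤ) ≤ (R : ℤ) ^ 2 := by exact_mod_cast hx
    have h1 : (x e.1) ^ 2 ≤ (R : ℤ) ^ 2 := by
      refine le_trans ?_ hx'
      rw [nsq_int]
      have h0 := sq_nonneg (x 0)
      have h1 := sq_nonneg (x 1)
      have h2 := sq_nonneg (x 2)
      obtain ⟨j, b⟩ := e
      fin_cases j <;> simp <;> linarith
    have h2 : |x e.1| ≤ (R : ℤ) := abs_le_of_sq_le_sq h1 (by positivity)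
    have h3 := abs_le.1 h2
    push_cast
    split_ifs <;> nlinarith [h3.1, h3.2]
  exact_mod_cast h

theorem sq_lt {a R : ℕ} (h : a ≤ R ^ 2) : a + 1 ≤ (R + 1) ^ 2 := by
  have : (R + 1) ^ 2 = R ^ 2 + 2 * R + 1 := by ring
  linarith [Nat.zero_le R]

theorem sum_h {x : V} {R : ℕ} (hx : nsq x ≤ R ^ 2) :
    (∑ e : Fin 3 × Bool, ((R + 1) ^ 2 - nsq (x + dir e))) = 6 * ((R + 1) ^ 2 - nsq x - 1) := by
  have h1 : (∑ e : Fin 3 × Bool, ((R + 1) ^ 2 - nsq (x + dir e))) +
      (∑ e : Fin 3 × Bool, nsq (x + dir e)) = 6 * (R + 1) ^ 2 := by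
    rw [← sum_add_distrib]
    have : ∀ e ∈ (univ : Finset (Fin 3 × Bool)),
        ((R + 1) ^ 2 - nsq (x + dir e)) + nsq (x + dir e) = (R + 1) ^ 2 :=
      fun e _ => Nat.sub_add_cancel (nsq_dir_le hx e)
    rw [sum_congr rfl this, sum_const, smul_eq_mul]
    simp
  rw [sum_nsq_dir] at h1
  have h2 := sq_lt hx
  omega

/-! ### lists -/

theorem sum_eraseIdx (g : V → ℕ) (l : List V) : ∀ i : ℕ, i < l.length →
    (l.map g).sum = g (l.getD i 0) + ((l.eraseIdx i).map g).sum := by
  induction l with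
  | nil => intro i hi; simp at hi
  | cons a l ih =>
    intro i hi
    cases i with
    | zero => simp
    | succ i =>
      have := ih i (by simpa using hi)
      simp only [List.map_cons, List.sum_cons, List.getD_cons_succ, List.eraseIdx_cons_succ]
      omega

theorem getD_mem {l : List V} {i : ℕ} (hi : i < l.length) : l.getD i 0 ∈ l := by
  rw [List.getD_eq_getElem _ _ hi]
  exact List.getElem_mem hi

/-! ### the children -/

theorem yy_put (s : St) (y : V) : yy (put s y) = yy s + 1 := by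
  unfold put yy
  split_ifs with h
  · simp only [List.length_cons]; omega
  · simp only [card_insert_of_notMem h]; omega

theorem VV_put (R : ℕ) (s : St) (y : V) : VV R (put s y) ≤ VV R s + ((R + 1) ^ 2 - nsq y) := by
  unfold put VV
  split_ifs with h
  · simp only [List.map_cons, List.sum_cons]; omega
  · simp only; omega

theorem yy_children (x : V) (k : ℕ) : ∀ s s' : St, children x k s s' ≠ 0 → yy s' = yy s + k := by
  induction k with
  | zero =>
    intro s s' h
    have : s' ∈ (children x 0 s).support := (PMF.mem_support_iff _ _).2 h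
    unfold children at this
    rw [(PMF.mem_support_pure_iff _ _).1 this, add_zero]
  | succ k ih =>
    intro s s' h
    have : s' ∈ (children x (k + 1) s).support := (PMF.mem_support_iff _ _).2 h
    unfold children at this
    obtain ⟨e, _, he⟩ := (PMF.mem_support_bind_iff _ _ _).1 this
    rw [ih _ _ ((PMF.mem_support_iff _ _).1 he), yy_put]
    omega

theorem Ex_unif (g : Fin 3 × Bool → ℕ) (m : ℕ) (hg : ∑ e, g e = 6 * m) :
    Ex (PMF.uniformOfFintype (Fin 3 × Bool)) (fun e => (g e : ℝ≥0∞)) = m := by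
  unfold Ex
  simp only [PMF.uniformOfFintype_apply]
  rw [ENNReal.tsum_mul_left, tsum_fintype, ← Nat.cast_sum, hg]
  have h6 : Fintype.card (Fin 3 × Bool) = 6 := by simp
  rw [h6]
  push_cast
  rw [← mul_assoc, ENNReal.inv_mul_cancel (by norm_num) (by norm_num), one_mul]

theorem VV_children {x : V} {R : ℕ} (hx : nsq x ≤ R ^ 2) (k : ℕ) : ∀ s : St,
    Ex (children x k s) (fun s' => (VV R s' : ℝ≥0∞)) ≤
      ((VV R s + k * ((R + 1) ^ 2 - nsq x - 1) : ℕ) : ℝ≥0∞) := by
  induction k with
  | zero =>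
    intro s
    unfold children
    rw [Ex_pure]
    simp
  | succ k ih =>
    intro s
    unfold children
    rw [Ex_bind]
    calc Ex (PMF.uniformOfFintype (Fin 3 × Bool)) (fun e =>
          Ex (children x k (put s (x + dir e))) (fun s' => (VV R s' : ℝ≥0∞)))
        ≤ Ex (PMF.uniformOfFintype (Fin 3 × Bool)) (fun e =>
          ((VV R s + k * ((R + 1) ^ 2 - nsq x - 1) : ℕ) : ℝ≥0∞) +
            (((R + 1) ^ 2 - nsq (x + dir e) : ℕ) : ℝ≥0∞)) := by
          refine Ex_mono _ (fun e _ => (ih _).trans ?_)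
          rw [← Nat.cast_add, Nat.cast_le]
          have := VV_put R s (x + dir e)
          omega
      _ = ((VV R s + k * ((R + 1) ^ 2 - nsq x - 1) : ℕ) : ℝ≥0∞) +
            (((R + 1) ^ 2 - nsq x - 1 : ℕ) : ℝ≥0∞) := by
          rw [Ex_add, Ex_const, Ex_unif _ _ (sum_h hx)]
      _ ≤ _ := by
          rw [← Nat.cast_add, Nat.cast_le]
          apply le_of_eq
          ring

/-! ### the event -/

theorem stepD_proc (ν : PMF ℕ) (R : ℕ) (s : St) (h : Proc R s) :
    stepD ν R s = (PMF.uniformOfFinset (range s.L.length)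
      ⟨0, Finset.mem_range.2 (List.length_pos_iff.2 h.1)⟩).bind fun i =>
        ν.bind fun k => children (s.L.getD i 0) k ⟨s.A, s.L.eraseIdx i, s.m⟩ := by
  unfold stepD step
  rw [if_pos h.2, dif_neg h.1]

theorem unif_support {n : ℕ} (hn : (range n).Nonempty) {i : ℕ}
    (hi : PMF.uniformOfFinset (range n) hn i ≠ 0) : i < n := by
  have := (PMF.mem_support_uniformOfFinset_iff hn i).1 ((PMF.mem_support_iff _ _).2 hi)
  exact mem_range.1 this

theorem yy_erase (s : St) {i : ℕ} (hi : i < s.L.length) :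
    yy ⟨s.A, s.L.eraseIdx i, s.m⟩ = yy s - 1 := by
  unfold yy
  simp only [List.length_eraseIdx_of_lt hi]
  omega

theorem VV_erase (R : ℕ) (s : St) {i : ℕ} (hi : i < s.L.length) :
    VV R s = ((R + 1) ^ 2 - nsq (s.L.getD i 0)) + VV R ⟨s.A, s.L.eraseIdx i, s.m⟩ := by
  unfold VV
  rw [sum_eraseIdx (fun x => (R + 1) ^ 2 - nsq x) s.L i hi]
  simp only
  omega

theorem t_GEN : S_GEN := by
  intro ν R s hs
  refine ⟨?_, ?_⟩
  · intro h
    by_cases hR : In R s
    · have hL : s.L = [] := by
        by_contra hne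
        exact h ⟨hne, hR⟩
      refine ⟨if s.m = 0 then s else ⟨s.A, [0], s.m - 1⟩, ?_, ?_, ?_, ?_⟩
      · unfold stepD step
        rw [if_pos hR, dif_pos hL]
      · split_ifs with hm
        · rfl
        · unfold yy
          rw [hL]
          simp only [List.length_cons, List.length_nil]
          omega
      · split_ifs with hm
        · rfl
        · unfold VV
          rw [hL]
          simp only [List.map_cons, List.map_nil, List.sum_cons, List.sum_nil, nsq_zero]
          obtain ⟨m', hm'⟩ := Nat.exists_eq_succ_of_ne_zero hm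
          rw [hm']
          simp only [Nat.succ_eq_add_one, Nat.add_sub_cancel]
          ring_nf
          omega
      · split_ifs with hm
        · rfl
        · unfold ZZ
          rw [hL]
          simp [nsq_zero]
    · refine ⟨s, ?_, rfl, rfl, rfl⟩
      unfold stepD
      rw [if_neg hR]
  · intro h
    refine ⟨?_, ?_, ?_⟩
    · intro f
      rw [stepD_proc ν R s h, Ex_bind]
      have h1 : ∀ i, PMF.uniformOfFinset (range s.L.length)
          ⟨0, Finset.mem_range.2 (List.length_pos_iff.2 h.1)⟩ i ≠ 0 →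
          Ex (ν.bind fun k => children (s.L.getD i 0) k ⟨s.A, s.L.eraseIdx i, s.m⟩)
            (fun s' => f (yy s')) = Ex ν (fun k => f (yy s - 1 + k)) := by
        intro i hi
        have hi' := unif_support _ hi
        rw [Ex_bind]
        refine Ex_congr _ (fun k _ => ?_)
        rw [Ex_congr (h := fun _ => f (yy s - 1 + k)), Ex_const]
        intro s' hs'
        rw [yy_children _ _ _ _ hs', yy_erase s hi']
      rw [Ex_congr _ h1, Ex_const]
    · intro f
      rw [stepD_proc ν R s h, Ex_bind]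
      refine Ex_mono _ (fun i hi => ?_)
      have hi' := unif_support _ hi
      rw [Ex_bind]
      refine Ex_mono _ (fun k _ => ?_)
      rw [Ex_congr (h := fun s' => f (yy s - 1 + k) * (VV R s' : ℝ≥0∞)), Ex_const_mul]
      · have hx : nsq (s.L.getD i 0) ≤ R ^ 2 := h.2 _ (hs.act _ (getD_mem hi'))
        have h2 := VV_children hx k ⟨s.A, s.L.eraseIdx i, s.m⟩
        have h3 := VV_erase R s hi'
        have h4 : VV R s - ((R + 1) ^ 2 - nsq (s.L.getD i 0)) =
            VV R ⟨s.A, s.L.eraseIdx i, s.m⟩ := by omega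
        rw [h4]
        gcongr
      · intro s' hs'
        rw [yy_children _ _ _ _ hs', yy_erase s hi']
    · intro i hi
      have hi' := mem_range.1 hi
      have hx : nsq (s.L.getD i 0) ≤ R ^ 2 := h.2 _ (hs.act _ (getD_mem hi'))
      have h3 := VV_erase R s hi'
      have h2 := sq_lt hx
      omega

end Pool.Agent.K1H39.BI
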